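import Pool.Agent.E8helper66.ND.Del

/-!
# The Euler product of the discriminant at the central point

Let `P(x) = ∏_{p ≤ x} (1 - τ(p) p^{-6} + p^{-1})^{-1}` be the partial Euler products of `L(s, Δ)` at the central
point `s = 6`, with the sharp cut-off, outside of the domain of convergence. For `κ > 0` let

`B_κ(l) = e^{-l} ∫_0^∞ l^v / Γ(1 + v) · log P(e^{κ v}) dv`

be the Borel means of `log P` (weights `l^v / Γ(1 + v)` instead of `l^n / n!`, a regular method of summation: if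
`log P(x)` converges, so does `B_κ(l)`, to the same limit). Let `D(κ, θ)` be the region of the `z = x + i y` with
`κ |x| < π / 2` and `e^{κ |y|} cos(κ x) > 1 + θ`. The regions `D(κ, 0)` increase to the set of all nonreal
numbers as `κ → 0`. It is shown, without any hypothesis:

* if `Ξ_Δ` has no zeros in `D(κ, 0)`, then `B_κ(l) → log (L(6, Δ) / √2)`; otherwise `B_κ` is unbounded;
* more precisely, for `θ ≥ 0`, `Ξ_Δ` has no zeros in `D(κ, θ)` if and only if
  `B_κ(l) = O(e^{(θ + ε) l})` for all `ε > 0`; so if there are zeros in `D(κ, 0)`, `B_κ` grows exponentially,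
  at exactly the rate given by the zeros;
* `B_κ` converges for all large `κ`; all zeros of `Ξ_Δ` are real if and only if it converges for all `κ > 0`.

Here only the primes and one point `s = 6` enter. The convergence of `P(x)` itself (to `L(6, Δ) / √2`, the
so-called deep Riemann hypothesis) implies that all zeros are real (Goldfeld's argument), but it is
equivalent to a statement which is stronger than the Riemann hypothesis (Kuo-Murty, Conrad).

Proof. With `z = e^{κ s}` the Borel transform of the sum over the prime powers is a Laplace transform, which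
is `-log L(6 + log z / κ, Δ) / (z log z)` for large `z`; the half plane `Re z > 1 + θ` corresponds to the region.
The prime powers are removed with the theorem of Rankin and Selberg (in the form of the asymptotics of
`∑_{n ≤ x} Λ(n) c(n)² / n`), which gives the factor `√2`; the bound of Deligne is not used.
-/

set_option autoImplicit false

namespace Pool.Agent.Results.MP_cd509c_nt.EulerProductCentreH66

open Filter Topology MeasureTheory Set

/-- `Δ(i y) = e^(-2πy) ∏_{n ≥ 1} (1 - e^(-2πny))^24`, the modular discriminant on the imaginary axis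
(the function of the frozen statement S18517). -/
noncomputable def delta (y : ℝ) : ℝ :=
  Real.exp (-2 * Real.pi * y) * ∏' n : ℕ, (1 - Real.exp (-2 * Real.pi * ((n : ℝ) + 1) * y)) ^ 24

/-- The completed L-function `Λ(s) = ∫_0^∞ Δ(i y) y^(s-1) dy = (2π)^(-s) Γ(s) L(s, Δ)`, an entire
function with `Λ(12 - s) = Λ(s)`. -/
noncomputable def Lam (s : ℂ) : ℂ := mellin (fun y : ℝ => ((delta y : ℝ) : ℂ)) s

/-- The Ramanujan Xi function `Ξ_Δ(z) = Λ(6 + i z)`. -/
noncomputable def Xi (z : ℂ) : ℂ := Lam (6 + Complex.I * z)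

/-- Q1 (the frozen statement S18517): every zero of the Ramanujan Xi function is real. -/
def AllZerosReal : Prop := ∀ z : ℂ, Xi z = 0 → z.im = 0

/-- Ramanujan's `τ(n)`: the coefficients of the q-expansion of the discriminant (they are real). -/
noncomputable def tau (n : ℕ) : ℝ := ((UpperHalfPlane.qExpansion 1 ModularForm.discriminant).coeff n).re

/-- `P(x)`: the product over the primes `p ≤ x` of the Euler factors of `L(s, Δ)` at `s = 6`. -/
noncomputable def product (x : ℝ) : ℝ :=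
  ∏ p ∈ (Finset.range (⌊x⌋₊ + 1)).filter Nat.Prime, (1 - tau p / (p : ℝ) ^ 6 + 1 / p)⁻¹

/-- The Borel mean `B_κ(l) = e^{-l} ∫_0^∞ l^v / Γ(1 + v) log P(e^{κ v}) dv`. -/
noncomputable def borelMean (κ l : ℝ) : ℝ :=
  Real.exp (-l) * ∫ v in Ioi (0 : ℝ), l ^ v / Real.Gamma (1 + v) *
    Real.log (product (Real.exp (κ * v)))

/-- `L(6, Δ) = (2π)^6 Λ(6) / Γ(6)`. -/
noncomputable def centralValue : ℝ := (2 * Real.pi) ^ 6 / 120 * (Lam 6).re

/-- `Ξ_Δ` has no zeros `x + i y` with `κ |x| < π / 2` and `e^{κ |y|} cos(κ x) > 1 + θ`. -/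
def ZeroFree (κ θ : ℝ) : Prop := ∀ z : ℂ, Xi z = 0 →
  ¬ (κ * |z.re| < Real.pi / 2 ∧ 1 + θ < Real.exp (κ * |z.im|) * Real.cos (κ * z.re))

theorem result :
    (∀ p : ℕ, p.Prime → 0 < 1 - tau p / (p : ℝ) ^ 6 + 1 / p) ∧
    (∀ κ l : ℝ, 0 < κ → 0 < l → IntegrableOn (fun v : ℝ => l ^ v / Real.Gamma (1 + v) *
      Real.log (product (Real.exp (κ * v)))) (Ioi 0)) ∧
    ((Lam 6).im = 0 ∧ 0 < centralValue) ∧
    (∀ κ : ℝ, 0 < κ →
      (ZeroFree κ 0 → Tendsto (borelMean κ) atTop (𝓝 (Real.log (centralValue / √2)))) ∧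
      (∀ θ : ℝ, 0 ≤ θ → (ZeroFree κ θ ↔ ∀ ε : ℝ, 0 < ε → ∃ K : ℝ, ∀ᶠ l : ℝ in atTop,
        |borelMean κ l| ≤ K * Real.exp ((θ + ε) * l)))) ∧
    (∀ κ κ' : ℝ, 0 < κ → κ ≤ κ' → ZeroFree κ 0 → ZeroFree κ' 0) ∧
    (∃ κ : ℝ, 0 < κ ∧ ZeroFree κ 0) ∧
    (AllZerosReal ↔ ∀ κ : ℝ, 0 < κ → ∃ a : ℝ, Tendsto (borelMean κ) atTop (𝓝 a)) := by
  obtain ⟨th, H⟩ := Pool.Agent.E8helper66.ND.lf_delta
  have hsel := Pool.Agent.E8helper66.ND.sel_delta
  have hLam : ∀ s : ℂ, Pool.Agent.E8helper66.ND.Ld s = Lam s := by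
    intro s
    rw [Pool.Agent.E8helper66.ND.Ld_mellin]
    rfl
  -- the Euler factors
  have hfac : ∀ p : ℕ, p.Prime → tau p / (p : ℝ) ^ 6 =
      Pool.Agent.E8helper66.ND.ld p * Pool.Agent.E8helper66.ND.Tp p ∧
      Pool.Agent.E8helper66.ND.Tp p ^ 2 = 1 / (p : ℝ) := by
    intro p hp
    have hp0 : (0 : ℝ) < p := by exact_mod_cast hp.pos
    constructor
    · have e2 : Pool.Agent.E8helper66.ND.ld p = tau p / (p : ℝ) ^ ((((12 : ℤ) : ℝ) - 1) / 2) := rfl
      rw [e2]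
      unfold Pool.Agent.E8helper66.ND.Tp
      rw [div_mul_eq_mul_div, div_eq_div_iff (by positivity) (Real.rpow_pos_of_pos hp0 _).ne',
        mul_assoc, ← Real.rpow_natCast, ← Real.rpow_add hp0]
      congr 2
      norm_num
    · rw [Pool.Agent.E8helper66.ND.Tp_sq ⟨p, hp⟩, one_div]
  have hpos : ∀ p : ℕ, p.Prime → 0 < 1 - tau p / (p : ℝ) ^ 6 + 1 / p := by
    intro p hp
    have h1 := (H.local_log ⟨p, hp⟩).1
    obtain ⟨h2, h3⟩ := hfac p hp
    rw [h2, ← h3]
    exact h1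
  have hlog : ∀ x : ℝ, Real.log (product x) =
      Pool.Agent.E8helper66.ND.Lp Pool.Agent.E8helper66.ND.ld ⌊x⌋₊ := by
    intro x
    unfold product Pool.Agent.E8helper66.ND.Lp
    rw [Real.log_prod (fun p hp => (inv_pos.2 (hpos p (Finset.mem_filter.1 hp).2)).ne')]
    refine Finset.sum_congr rfl fun p hp => ?_
    obtain ⟨h2, h3⟩ := hfac p (Finset.mem_filter.1 hp).2
    rw [Real.log_inv, h2, ← h3]
  have hbm : borelMean = Pool.Agent.E8helper66.ND.bm Pool.Agent.E8helper66.ND.ld := by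
    funext κ l
    unfold borelMean Pool.Agent.E8helper66.ND.bm Pool.Agent.E8helper66.BM.BI
      Pool.Agent.E8helper66.ND.SL Pool.Agent.E8helper66.BM.Kr
    simp only [hlog]
  have hz : ∀ κ θ : ℝ, 0 < κ → 0 ≤ θ → ((∀ s ∈ Pool.Agent.E8helper66.BM.RgA κ θ,
      Pool.Agent.E8helper66.ND.Fd (s - 1 / 2) ≠ 0) ↔ ZeroFree κ θ) := by
    intro κ θ hκ hθ
    rw [Pool.Agent.E8helper66.ND.zeros_iff hκ hθ]
    unfold ZeroFree Xi
    simp only [hLam]
  have hz0 : ∀ κ : ℝ, 0 < κ → ((∀ s ∈ Pool.Agent.E8helper66.BM.Rg κ,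
      Pool.Agent.E8helper66.ND.Fd (s - 1 / 2) ≠ 0) ↔ ZeroFree κ 0) := by
    intro κ hκ
    rw [← hz κ 0 hκ le_rfl]
    have : Pool.Agent.E8helper66.BM.RgA κ 0 = Pool.Agent.E8helper66.BM.Rg κ := by
      unfold Pool.Agent.E8helper66.BM.RgA Pool.Agent.E8helper66.BM.Rg
      simp
    rw [this]
  -- the central value
  have hcv : ∀ c : ℝ, Pool.Agent.E8helper66.ND.Fd (1 / 2) = c →
      (Lam 6).im = 0 ∧ centralValue = c := by
    intro c hc
    have h1 : Pool.Agent.E8helper66.ND.Fd (1 / 2) = ((((2 * Real.pi) ^ 6 / 120 : ℝ)) : ℂ) * Lam 6 := by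
      unfold Pool.Agent.E8helper66.ND.Fd
      have e1 : (1 / 2 + 11 / 2 : ℂ) = 6 := by norm_num
      rw [e1, hLam]
      have e2 : Complex.Gamma 6 = 120 := by
        have h := Complex.Gamma_nat_eq_factorial 5
        have e3 : ((5 : ℕ) : ℂ) + 1 = 6 := by norm_num
        rw [e3] at h
        rw [h]
        norm_num [Nat.factorial]
      have e3 : (((2 * Real.pi : ℝ) : ℂ)) ^ (6 : ℂ) = (((2 * Real.pi) ^ 6 : ℝ) : ℂ) := by
        have h := Complex.cpow_natCast ((2 * Real.pi : ℝ) : ℂ) 6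
        have e4 : ((6 : ℕ) : ℂ) = 6 := by norm_num
        rw [e4] at h
        rw [h]
        push_cast
        rfl
      rw [e2, e3]
      push_cast
      ring
    rw [h1] at hc
    have hk : (0 : ℝ) < (2 * Real.pi) ^ 6 / 120 := by
      have := Real.pi_pos
      positivity
    constructor
    · have h2 := congrArg Complex.im hc
      rw [Complex.im_ofReal_mul, Complex.ofReal_im] at h2
      rcases mul_eq_zero.1 h2 with h | h
      · exact absurd h hk.ne'
      · exact h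
    · have h2 := congrArg Complex.re hc
      rw [Complex.re_ofReal_mul, Complex.ofReal_re] at h2
      exact h2
  have hlim : ∀ κ : ℝ, 0 < κ → ZeroFree κ 0 → (Lam 6).im = 0 ∧ 0 < centralValue ∧
      Tendsto (borelMean κ) atTop (𝓝 (Real.log (centralValue / √2))) := by
    intro κ hκ h
    obtain ⟨c, hc, hF, ht⟩ := H.limit hsel hκ ((hz0 κ hκ).2 h)
    obtain ⟨h1, h2⟩ := hcv c hF
    rw [hbm, h2]
    exact ⟨h1, hc, ht⟩
  obtain ⟨κ₁, hκ₁, hκ₁f⟩ := H.large fun x hx => Pool.Agent.E8helper66.ND.Fd_real x hx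
  have hfree₁ := (hz0 κ₁ hκ₁).1 hκ₁f
  have hconv : ∀ κ : ℝ, 0 < κ → (∃ a : ℝ, Tendsto (borelMean κ) atTop (𝓝 a)) → ZeroFree κ 0 := by
    rintro κ hκ ⟨a, ha⟩
    rw [hbm] at ha
    exact (hz0 κ hκ).1 (H.no_zeros hsel hκ (Pool.Agent.E8helper66.ND.grow_of_tendsto ha))
  refine ⟨hpos, fun κ l hκ hl => ?_, ⟨(hlim κ₁ hκ₁ hfree₁).1, (hlim κ₁ hκ₁ hfree₁).2.1⟩,
    fun κ hκ => ⟨fun h => (hlim κ hκ h).2.2, fun θ hθ => ?_⟩, fun κ κ' hκ hκκ' h => ?_,
    ⟨κ₁, hκ₁, hfree₁⟩, fun h κ hκ => ?_, fun h z hz1 => ?_⟩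
  · obtain ⟨e⟩ : Nonempty (ℕ ≃ Nat.Primes × ℕ) := nonempty_equiv_of_countable
    have h1 := (H.compare hsel hκ e).1 l hl
    unfold Pool.Agent.E8helper66.ND.SL Pool.Agent.E8helper66.BM.Kr at h1
    simp only [hlog]
    exact h1
  · rw [← hz κ θ hκ hθ, hbm]
    exact H.level hsel hκ hθ
  · have hκ' : 0 < κ' := hκ.trans_le hκκ'
    rw [← hz0 κ' hκ']
    rw [← hz0 κ hκ] at h
    exact fun s hs => h s (Pool.Agent.E8helper66.BM.rg_mono hκ hκκ' hs)
  · refine ⟨_, (hlim κ hκ fun z hz1 => ?_).2.2⟩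
    rintro ⟨-, h2⟩
    have h3 := h z hz1
    rw [h3, abs_zero, mul_zero, Real.exp_zero, one_mul] at h2
    have := Real.cos_le_one (κ * z.re)
    linarith
  · by_contra him
    have hs : 1 < ((1 + |z.im| : ℝ) + (z.re : ℂ) * Complex.I : ℂ).re := by
      simp
      exact him
    obtain ⟨κ, hκ, hmem⟩ := Pool.Agent.E8helper66.BM.rg_exhaust hs
    have h1 := hconv κ hκ (h κ hκ) z hz1
    apply h1
    have e1 : ((1 + |z.im| : ℝ) + (z.re : ℂ) * Complex.I : ℂ).im = z.re := by simp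
    have e2 : ((1 + |z.im| : ℝ) + (z.re : ℂ) * Complex.I : ℂ).re - 1 = |z.im| := by simp
    constructor
    · have h2 := hmem.1
      rwa [e1, abs_mul, abs_of_pos hκ] at h2
    · have h2 := hmem.2
      rw [Pool.Agent.E8helper66.BM.rg_re_im, e1, e2] at h2
      rw [add_zero]
      exact h2

end Pool.Agent.Results.MP_cd509c_nt.EulerProductCentreH66
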