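import Pool.Agent.E8helper14.DL.Fin

/-!
# The zeros of the Ramanujan Xi function and the mean of the exponential of a prime sum

For a prime `p` let `s_k(p) = α^k + β^k`, `α`, `β` the roots of `X² - τ(p) X + p^11`.  For `a > 0` let

`E_a(v) = - (2πa)^(-1/2) ∑_p ∑_{k ≥ 1} log p · s_k(p) · p^(-6k) · exp(-(v - k log p)² / (2a))`,

a Gaussian smoothing at `x = e^v`, normalised, of the sum over the prime powers which belongs to
`L'(s, Δ) / L(s, Δ)`; and for `α > 0` let `M(V)` be the mean of `exp(α E_a(v))` over `0 ≤ v ≤ V`.  Let `Γ` be the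
multi-set of the positive real parts `γ` of the zeros of `Ξ_Δ`, with multiplicity, and let

`R = ∏_{γ ∈ Γ} I₀(2 α exp(-a γ² / 2))`, `I₀` the modified Bessel function.

No hypothesis is assumed.  For each `a > 0` and `α > 0` exactly one of the following three cases occurs.

1. All zeros of `Ξ_Δ` are real, the multi-set `Γ` is linearly independent over `ℚ` (in particular all zeros are
   simple), and `M(V) → R`.
2. All zeros of `Ξ_Δ` are real, `Γ` is linearly dependent over `ℚ`, and `M(V)` has a limit `L > R`; every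
   nontrivial integral relation `∑ n_x γ_x = 0` (a multiple zero included) forces
   `L ≥ R + 2 ∏ (α exp(-a γ_x² / 2))^|n_x| / |n_x|!`.
3. Not all zeros of `Ξ_Δ` are real, and `M(V)` grows doubly exponentially: the upper limit of
   `log log M(V) / V` is `θ = sup |Im z|`, the supremum over the zeros, `0 < θ ≤ 1/2`.

So all zeros of `Ξ_Δ` are real if and only if `M` is bounded, or only `M(V) ≤ exp(exp(ε V))` for large `V` for each
`ε > 0`; and they are, moreover, simple with linearly independent `γ`, if and only if `limsup M(V) ≤ R`.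

Proof.  By an explicit formula `E_a(v)` is `∑_z exp(-a z² / 2) exp(i z v) + o(1)`, the sum over the zeros of `Ξ_Δ`.
If all zeros are real, the coefficients are positive, so that all the Fourier coefficients of the almost periodic
function `exp(α E_a)` are sums of positive terms; those of the mean value which belong to no relation add up to
`R`.  If `M(V) ≤ exp(exp(t V))` for large `V`, then the positive part of `E_a` has a mean value
`≤ (exp(t V) + 1) / α` by `x ≤ T + exp(x - T)`, and a theorem of Landau for the Laplace transform of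
`max(E_a, 0) - E_a` gives `|Im z| ≤ t` for all zeros.
-/

set_option autoImplicit false

open Filter Topology Complex

namespace Pool.Agent.Results.MP_cd509c_nt.ExponentialMeanH14

/-- `Δ(i y) = e^(-2πy) ∏_{n ≥ 1} (1 - e^(-2πny))^24`, the modular discriminant on the imaginary axis
(the function of the frozen statement S18517). -/
noncomputable def delta (y : ℝ) : ℝ :=
  Real.exp (-2 * Real.pi * y) * ∏' n : ℕ, (1 - Real.exp (-2 * Real.pi * ((n : ℝ) + 1) * y)) ^ 24

/-- The completed L-function `Λ(s) = ∫_0^∞ Δ(i y) y^(s-1) dy = (2π)^(-s) Γ(s) L(s, Δ)`, an entire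
function with `Λ(12 - s) = Λ(s)`. -/
noncomputable def Lam (s : ℂ) : ℂ := mellin (fun y : ℝ => ((delta y : ℝ) : ℂ)) s

/-- The Ramanujan Xi function `Ξ_Δ(z) = Λ(6 + i z)`. -/
noncomputable def Xi (z : ℂ) : ℂ := Lam (6 + Complex.I * z)

/-- Q1 (the frozen statement S18517): every zero of the Ramanujan Xi function is real. -/
def AllZerosReal : Prop := ∀ z : ℂ, Xi z = 0 → z.im = 0

/-- Ramanujan's `τ(n)`: the coefficients of the q-expansion of the discriminant (they are real). -/
noncomputable def tau (n : ℕ) : ℝ := ((UpperHalfPlane.qExpansion 1 ModularForm.discriminant).coeff n).re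

/-- The power sums `s_k(p) = α^k + β^k` of the roots `α`, `β` of `X² - τ(p) X + p^11`. -/
noncomputable def powerSum (p : ℕ) : ℕ → ℝ
  | 0 => 2
  | 1 => tau p
  | k + 2 => tau p * powerSum p (k + 1) - (p : ℝ) ^ 11 * powerSum p k

/-- `log p · s_k(p) · p^(-6k) · exp(-(v - k log p)² / (2a))` for `k = x.2 + 1 ≥ 1` and the prime `p = x.1`. -/
noncomputable def primeTerm (a v : ℝ) (x : Nat.Primes × ℕ) : ℝ :=
  Real.log (x.1 : ℕ) * powerSum x.1 (x.2 + 1) / ((x.1 : ℕ) : ℝ) ^ (6 * (x.2 + 1)) *
    Real.exp (-(v - (x.2 + 1) * Real.log (x.1 : ℕ)) ^ 2 / (2 * a))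

/-- The smoothed and normalised sum over the prime powers near `e^v`. -/
noncomputable def E (a v : ℝ) : ℝ := -(∑' x : Nat.Primes × ℕ, primeTerm a v x) / Real.sqrt (2 * Real.pi * a)

/-- The mean of `exp (α E_a)` over `[0, V]`. -/
noncomputable def M (a α V : ℝ) : ℝ := V⁻¹ * ∫ v in (0 : ℝ)..V, Real.exp (α * E a v)

/-- The index set of the multi-set `Γ`: the pairs `(z, j)`, `Re z > 0`, `j` smaller than the multiplicity of `z`
as a zero of `Ξ_Δ`. -/
abbrev Gam : Type := {x : ℂ × ℕ // 0 < x.1.re ∧ x.2 < analyticOrderNatAt Xi x.1}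

/-- The real part of the zero belonging to an index. -/
def γ (x : Gam) : ℝ := x.1.1.re

/-- `I₀(2 c)`, where `I₀` is the modified Bessel function of order zero. -/
noncomputable def I0 (c : ℝ) : ℝ := ∑' k : ℕ, (c ^ k / (k.factorial : ℝ)) ^ 2

/-- The constant `∏ I₀(2 α exp(-a γ² / 2))`, the product over the elements of `Γ`. -/
noncomputable def R (a α : ℝ) : ℝ := ∏' x : Gam, I0 (α * Real.exp (-(a / 2) * γ x ^ 2))

/-- **Theorem** (no hypothesis).  The series for `E_a(v)` converges absolutely, and for all `a > 0` and `α > 0` one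
of the following (mutually exclusive) cases occurs: all zeros of `Ξ_Δ` are real, `Γ` is linearly independent over
`ℚ` and `M → R`; or all zeros are real, `Γ` is linearly dependent and `M` has a limit `L > R`, where every nonzero
integral vector `n` on `Γ` with `∑ n_x γ_x = 0` forces `L ≥ R + 2 ∏ (α exp(-a γ_x² / 2))^|n_x| / |n_x|!`; or not
all zeros are real, and, `θ` being the supremum of `|Im z|` over the zeros `z`, `0 < θ ≤ 1/2`, for each `ε > 0` one
has `M(V) ≤ exp(exp((θ + ε) V))` for all large `V` and `M(V) > exp(exp((θ - ε) V))` for arbitrarily large `V`. -/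
theorem result (a α : ℝ) (ha : 0 < a) (hα : 0 < α) :
    (∀ v : ℝ, Summable (primeTerm a v)) ∧
    ((AllZerosReal ∧ LinearIndependent ℚ γ ∧ Tendsto (M a α) atTop (𝓝 (R a α))) ∨
    (AllZerosReal ∧ ¬ LinearIndependent ℚ γ ∧ ∃ L : ℝ, R a α < L ∧ Tendsto (M a α) atTop (𝓝 L) ∧
      ∀ n : Gam →₀ ℤ, n ≠ 0 → n.sum (fun x k => (k : ℝ) * γ x) = 0 →
        R a α + 2 * n.prod (fun x k =>
          (α * Real.exp (-(a / 2) * γ x ^ 2)) ^ k.natAbs / (k.natAbs.factorial : ℝ)) ≤ L) ∨
    (¬ AllZerosReal ∧ ∃ θ : ℝ, 0 < θ ∧ θ ≤ 1 / 2 ∧ IsLUB {t : ℝ | ∃ z : ℂ, Xi z = 0 ∧ |z.im| = t} θ ∧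
      ∀ ε : ℝ, 0 < ε → (∀ᶠ V in atTop, M a α V ≤ Real.exp (Real.exp ((θ + ε) * V))) ∧
        ∃ᶠ V in atTop, Real.exp (Real.exp ((θ - ε) * V)) < M a α V)) := by
  have hXi : Xi = E8helper14.DL.Xg := by
    funext z
    unfold Xi E8helper14.DL.Xg
    rw [Pool.Agent.E8helper66.ND.Ld_mellin]
    rfl
  -- the error term
  have htau : ∀ p : ℕ, p.Prime → tau p = (p : ℝ) ^ (11 / 2 : ℝ) * E8helper66.ND.ld p := by
    intro p hp
    have hp0 : (0 : ℝ) < p := by exact_mod_cast hp.pos
    have e2 : E8helper66.ND.ld p = tau p / (p : ℝ) ^ ((((12 : ℤ) : ℝ) - 1) / 2) := rfl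
    have e3 : (((12 : ℤ) : ℝ) - 1) / 2 = 11 / 2 := by norm_num
    rw [e2, e3, mul_div_cancel₀ _ (Real.rpow_pos_of_pos hp0 _).ne']
  set f : ℝ → ℕ → ℝ := fun v n => ArithmeticFunction.vonMangoldt n * E8helper14.DL.cD n * (n : ℝ) ^ (-(1 / 2) : ℝ) *
    E8helper14.LI.gs a (v - Real.log n) with hf
  have hterm : ∀ (v : ℝ) (x : Nat.Primes × ℕ), f v ((x.1 : ℕ) ^ (x.2 + 1)) = primeTerm a v x := by
    intro v x
    exact E8helper14.DL.term_pp x.1 x.2 (s := powerSum x.1) (htau x.1 x.1.2) rfl rfl (fun k => rfl)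
  have hfs : ∀ v, Summable (f v) := by
    intro v
    have h1 := E8helper14.LI.psum_summable ha (b := Pool.Agent.Y23.G.aL (L := E8helper14.DL.LDel))
      (Pool.Agent.Y23.G.aL_norm (L := E8helper14.DL.LDel)) v
    refine Summable.of_norm (h1.congr fun n => ?_)
    rw [E8helper14.DL.aL_D, ← Complex.ofReal_mul, Complex.norm_real]
  have hE : E a = E8helper14.DL.ED a := by
    funext v
    have h1 := E8helper14.DL.sum_pp (f v) fun n hn => by
      simp only [hf]
      rw [ArithmeticFunction.vonMangoldt_eq_zero_iff.2 hn]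
      simp
    unfold E E8helper14.DL.ED E8helper14.LI.KG
    have h2 : ∑' n : ℕ, ArithmeticFunction.vonMangoldt n * E8helper14.DL.cD n * (n : ℝ) ^ (-(1 / 2) : ℝ) *
        E8helper14.LI.gs a (v - Real.log n) = ∑' x : Nat.Primes × ℕ, primeTerm a v x := by
      show ∑' n : ℕ, f v n = _
      rw [h1]
      exact tsum_congr fun x => hterm v x
    rw [h2]
    ring
  have hM : M a α = E8helper14.LI.mn (fun v => Real.exp (α * E8helper14.DL.ED a v)) := by
    funext V
    unfold M E8helper14.LI.mn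
    rw [hE]
  have hG := E8helper14.DL.gn_D ha
  have hreal : AllZerosReal ↔ ∀ s, E8helper14.DL.mDel s ≠ 0 → s.re = 1 / 2 := by
    have h1 := E8helper14.DL.zeros_form (fun x => x = 0)
    constructor
    · intro h s hs
      have h2 := h1.2 (fun z hz => by rw [h z (by rw [hXi]; exact hz), neg_zero]) s hs
      linarith
    · intro h z hz
      have h2 := h1.1 (fun s hs => by rw [h s hs, sub_self]) z (by rw [← hXi]; exact hz)
      simpa using h2
  let e : Gam ≃ E8helper14.DL.Zg E8helper14.DL.mDel :=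
    (Equiv.subtypeEquivRight (fun x => by rw [hXi])).trans E8helper14.DL.gamE
  have hγ : E8helper14.DL.gg e = γ := by
    funext x
    exact E8helper14.DL.gg_gamE _
  have hcg : ∀ x : Gam, E8helper14.DL.cg e a α x = α * Real.exp (-(a / 2) * γ x ^ 2) := by
    intro x
    unfold E8helper14.DL.cg
    rw [hγ]
  have hR : E8helper14.DL.RG e a α = R a α := by
    unfold E8helper14.DL.RG R
    rw [E8helper14.DL.mDel_half, Nat.cast_zero, mul_zero, Real.exp_zero, one_mul]
    exact tprod_congr fun x => by rw [hcg]; rfl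
  refine ⟨fun v => (E8helper14.DL.summ_pp (hfs v)).congr fun x => hterm v x, ?_⟩
  by_cases hA : AllZerosReal
  · obtain ⟨L, hL, hle, hiff, hgap⟩ := hG.limit e ha hα (hreal.1 hA)
    rw [← hM] at hL
    rw [hR] at hle hiff hgap
    rw [hγ] at hiff
    rw [E8helper14.DL.mDel_half, Nat.cast_zero, mul_zero, Real.exp_zero, mul_one] at hgap
    by_cases hLI : LinearIndependent ℚ γ
    · left
      have e1 : L = R a α := hiff.2 hLI
      rw [e1] at hL
      exact ⟨hA, hLI, hL⟩
    · right; left
      refine ⟨hA, hLI, L, lt_of_le_of_ne hle fun e1 => hLI (hiff.1 e1.symm), hL, fun n hn hrel => ?_⟩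
      have h1 := hgap n hn (by rw [hγ]; exact hrel)
      simp only [hcg] at h1
      exact h1
  · right; right
    refine ⟨hA, ?_⟩
    set S : Set ℝ := {t : ℝ | ∃ z : ℂ, Xi z = 0 ∧ |z.im| = t} with hS
    have hSb : ∀ t ∈ S, t ≤ 1 / 2 := by
      rintro t ⟨z, hz, rfl⟩
      exact E8helper14.DL.im_le (by rw [← hXi]; exact hz)
    have hSbdd : BddAbove S := ⟨1 / 2, hSb⟩
    obtain ⟨z0, hz0, him⟩ : ∃ z : ℂ, Xi z = 0 ∧ z.im ≠ 0 := by
      unfold AllZerosReal at hA
      push Not at hA
      exact hA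
    have hz0S : |z0.im| ∈ S := ⟨z0, hz0, rfl⟩
    have hlub : IsLUB S (sSup S) := isLUB_csSup ⟨_, hz0S⟩ hSbdd
    have hpos : 0 < sSup S := lt_of_lt_of_le (abs_pos.2 him) (hlub.1 hz0S)
    have hgr : ∀ t : ℝ, 0 ≤ t → ((∀ s, E8helper14.DL.mDel s ≠ 0 → |s.re - 1 / 2| ≤ t) ↔ sSup S ≤ t) := by
      intro t _
      rw [E8helper14.DL.zeros_form (fun x => |x| ≤ t)]
      constructor
      · intro h
        refine hlub.2 ?_
        rintro _ ⟨z, hz, rfl⟩
        have := h z (by rw [← hXi]; exact hz)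
        rwa [abs_neg] at this
      · intro h z hz
        rw [abs_neg]
        exact (hlub.1 ⟨z, by rw [hXi]; exact hz, rfl⟩).trans h
    refine ⟨sSup S, hpos, hlub.2 fun t ht => hSb t ht, hlub, fun ε hε => ⟨?_, ?_⟩⟩
    · rw [hM]
      exact (hG.growth ha hα hpos.le).1 ((hgr _ hpos.le).2 le_rfl) ε hε
    · by_contra hcon
      rw [not_frequently] at hcon
      set t : ℝ := max (sSup S - ε) 0 with ht
      have ht0 : 0 ≤ t := le_max_right _ _
      have h1 : ∀ s, E8helper14.DL.mDel s ≠ 0 → |s.re - 1 / 2| ≤ t := by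
        refine (hG.growth ha hα ht0).2 fun δ hδ => ?_
        filter_upwards [hcon, eventually_ge_atTop 0] with V hV hV0
        rw [not_lt] at hV
        rw [← hM]
        refine hV.trans (Real.exp_le_exp.2 (Real.exp_le_exp.2 (mul_le_mul_of_nonneg_right ?_ hV0)))
        have := le_max_left (sSup S - ε) 0
        linarith
      have h2 := (hgr t ht0).1 h1
      rcases le_total (sSup S - ε) 0 with h3 | h3
      · rw [ht, max_eq_right h3] at h2
        linarith
      · rw [ht, max_eq_left h3] at h2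
        linarith

end Pool.Agent.Results.MP_cd509c_nt.ExponentialMeanH14
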