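import Pool.Agent.E8helper6.LI.Fin

/-!
# Li coefficients of the Ramanujan Xi function along arbitrary sparse sequences: one or one half

Let `Λ(s) = (2π)^(-s) Γ(s) L(s, Δ)`, so that `Ξ_Δ(z) = Λ(6 + i z)`. For a real number `a > 0` the map
`z ↦ 6 + a (1 + z) / (1 - z)` takes the unit disc onto the half-plane `Re s > 6`, and `0` to `6 + a`. Let `λ_n(a)` be the
`n`-th Taylor coefficient at `0` of `z φ'(z) / φ(z)`, `φ(z) = Λ(6 + a (1 + z) / (1 - z))`. These are the Li coefficients of
`L(s, Δ)` with base point `6 + a`, that is `λ_n(a) = ∑_ρ (1 - ((ρ - a) / (ρ + a))^n)` over the zeros `6 + ρ` of `Λ`; for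
`a = 1/2` they are the classical ones, and for `a > 1/2` they are given by absolutely convergent series over the prime
powers. It is well known (Li, Bombieri and Lagarias, Lagarias, Sekatskii) that all zeros of `Ξ_Δ` are real if and only if
`λ_n(a) ≥ 0` for all `n`.

We prove that it is enough to know the signs on an arbitrarily sparse set of `n`, and that they obey the following law:
for EVERY sequence `ν` of distinct natural numbers and almost every `a > 0` the numbers `λ_(ν k)(a)`, `k = 0, 1, 2, …`,
are nonnegative with frequency `1` if all zeros of `Ξ_Δ` are real, and with frequency exactly `1/2` if not. In the second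
case half of them is even smaller than `- exp (c ν(k))` and half of them is larger than `exp (c ν(k))`, `c = c(a) > 0`.

Proof. If `Ξ_Δ` has a nonreal zero, then `λ_n(a)` is dominated by the zeros `6 + ρ`, `Re ρ > 0`, which are nearest to
`6 + a` in the hyperbolic metric of the half-plane `Re s > 6`. For all `a` outside of a countable set these are a zero and
its complex conjugate only (and they are not real as `Λ > 0` on the real line), and `λ_n(a)` is asymptotically
`- 2 m r^(-n) cos (n θ(a))`. The function `θ` is a diffeomorphism onto its image, and by a theorem of Weyl the numbers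
`ν(k) θ` are equidistributed modulo `2π` for almost every `θ`. If all zeros of `Ξ_Δ` are real, `Λ(6 + w)` is a limit of
polynomials with all zeros on the imaginary axis (starting modules of helper22 and helper24 on Hadamard's theorem), for
which the positivity is obvious.
-/

set_option autoImplicit false

namespace Pool.Agent.Results.MP_cd509c_nt.LiFrequenciesH6

open Filter Topology MeasureTheory

/-- `Δ(i y) = e^(-2πy) ∏_{n ≥ 1} (1 - e^(-2πny))^24`, the modular discriminant on the imaginary axis
(the function of the frozen statement S18517). -/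
noncomputable def delta (y : ℝ) : ℝ :=
  Real.exp (-2 * Real.pi * y) * ∏' n : ℕ, (1 - Real.exp (-2 * Real.pi * ((n : ℝ) + 1) * y)) ^ 24

/-- The completed L-function `Λ(s) = ∫_0^∞ Δ(i y) y^(s-1) dy = (2π)^(-s) Γ(s) L(s, Δ)`, an entire
function with `Λ(12 - s) = Λ(s)`. -/
noncomputable def Lam (s : ℂ) : ℂ := mellin (fun y : ℝ => ((delta y : ℝ) : ℂ)) s

/-- The Ramanujan Xi function `Ξ_Δ(z) = Λ(6 + i z)`. -/
noncomputable def Xi (z : ℂ) : ℂ := Lam (6 + Complex.I * z)

/-- Q1 (the frozen statement S18517): every zero of the Ramanujan Xi function is real. -/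
def AllZerosReal : Prop := ∀ z : ℂ, Xi z = 0 → z.im = 0

/-- `φ_a(z) = Λ(6 + a (1 + z) / (1 - z))`; `z ↦ 6 + a (1 + z) / (1 - z)` maps the unit disc onto the half-plane
`Re s > 6` and `0` to `6 + a`. -/
noncomputable def phi (a : ℝ) (z : ℂ) : ℂ := Lam (6 + a * (1 + z) / (1 - z))

/-- The `n`-th derivative of `z φ_a'(z) / φ_a(z)` at `z = 0`. -/
noncomputable def liDeriv (a : ℝ) (n : ℕ) : ℂ := iteratedDeriv n (fun z => z * deriv (phi a) z / phi a z) 0

/-- The Li coefficient `λ_n(a)` with base point `6 + a`: the `n`-th Taylor coefficient of `z φ_a'(z) / φ_a(z)` at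
`z = 0` (it is real, see `result`). -/
noncomputable def li (a : ℝ) (n : ℕ) : ℝ := (liDeriv a n).re / n.factorial

open Classical in
/-- The frequency of the property `p` among `0, …, K - 1`. -/
noncomputable def freq (p : ℕ → Prop) (K : ℕ) : ℝ := (((Finset.range K).filter p).card : ℝ) / K

/-- (1) The derivatives which define `λ_n(a)` are real. (2) If all zeros of `Ξ_Δ` are real, then `λ_n(a) ≥ 0` for all
`n` and all `a > 0`. (3) If not, then for every sequence `ν` of distinct natural numbers and almost every `a > 0` there is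
`c > 0` such that both `λ_(ν k)(a) < - exp (c ν(k))` and `λ_(ν k)(a) > exp (c ν(k))` hold with the frequency `1/2`.
(4) So for every sequence `ν` of distinct natural numbers and almost every `a > 0` the frequency of the `k` with
`λ_(ν k)(a) ≥ 0` is `1` if all zeros of `Ξ_Δ` are real, and `1/2` otherwise. -/
theorem result :
    (∀ (a : ℝ) (n : ℕ), (liDeriv a n).im = 0) ∧
    (AllZerosReal → ∀ (a : ℝ) (n : ℕ), 0 < a → 0 ≤ li a n) ∧
    (¬ AllZerosReal → ∀ ν : ℕ → ℕ, Function.Injective ν → ∀ᵐ a : ℝ, 0 < a → ∃ c : ℝ, 0 < c ∧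
      Tendsto (freq fun k => li a (ν k) < -Real.exp (c * ν k)) atTop (𝓝 (1 / 2)) ∧
      Tendsto (freq fun k => Real.exp (c * ν k) < li a (ν k)) atTop (𝓝 (1 / 2))) ∧
    ∀ ν : ℕ → ℕ, Function.Injective ν → ∀ᵐ a : ℝ, 0 < a →
      (AllZerosReal → Tendsto (freq fun k => 0 ≤ li a (ν k)) atTop (𝓝 1)) ∧
      (¬ AllZerosReal → Tendsto (freq fun k => 0 ≤ li a (ν k)) atTop (𝓝 (1 / 2))) := by
  obtain ⟨B, F, K, hB, hEv⟩ := Pool.Agent.Y22.RX.ev_delta
  set f := Pool.Agent.H128R3.GJB.X1 (Pool.Agent.H128R3.JD.DelHk.hk B) with hf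
  have hX1 : f = fun z : ℂ => Lam (6 + z) := by
    funext z
    show mellin (fun y : ℝ => ((delta y : ℝ) : ℂ)) ((((12 : ℝ) / 2 : ℝ) : ℂ) + z) = _
    have h6 : (((12 : ℝ) / 2 : ℝ) : ℂ) = 6 := by
      push_cast
      norm_num
    rw [h6]
    rfl
  have hph : ∀ a : ℝ, Pool.Agent.E8helper6.LI.ph f a = phi a := by
    intro a
    funext z
    unfold Pool.Agent.E8helper6.LI.ph phi
    rw [hX1]
  have hre : ∀ x : ℝ, f x ≠ 0 := Pool.Agent.Y22.RX.real_ne hB rfl
    (fun y hy => Pool.Agent.H128R3.JD.DelK.Dl_pos hy)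
  have hli : ∀ (a : ℝ) (n : ℕ), (Pool.Agent.E8helper6.LI.co n (Pool.Agent.E8helper6.LI.ld
      (Pool.Agent.E8helper6.LI.ph f a))).re = li a n := by
    intro a n
    unfold Pool.Agent.E8helper6.LI.co li liDeriv
    rw [hph, ← Complex.ofReal_natCast, Complex.div_ofReal_re]
    rfl
  have hRH : (∀ z, f z = 0 → z.re = 0) ↔ AllZerosReal := by
    rw [hX1]
    constructor
    · intro h z hz
      have h1 := h (Complex.I * z) hz
      simpa using h1
    · intro h z hz
      have h1 := h (-Complex.I * z) (by
        unfold Xi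
        have e : (6 : ℂ) + Complex.I * (-Complex.I * z) = 6 + z := by
          linear_combination (-z) * Complex.I_mul_I
        rw [e]
        exact hz)
      simpa using h1
  obtain ⟨h1, h2⟩ := Pool.Agent.E8helper6.LI.Ev.law hEv hre
  rw [hRH] at h1 h2
  simp only [hli] at h1 h2
  have hfr : freq = Pool.Agent.E8helper6.LI.fr := by
    funext p K
    unfold freq Pool.Agent.E8helper6.LI.fr
    rfl
  rw [hfr]
  refine ⟨fun a n => ?_, h1, h2, fun ν hν => ?_⟩
  · have := Pool.Agent.E8helper6.LI.ld_real hEv.fconj a n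
    rw [hph] at this
    exact this
  · by_cases hA : AllZerosReal
    · refine Eventually.of_forall fun a ha => ⟨fun _ => ?_, fun h => absurd hA h⟩
      exact Pool.Agent.E8helper6.LI.fr_all fun k => h1 hA a (ν k) ha
    · filter_upwards [h2 hA ν hν] with a ha3 ha
      obtain ⟨c, -, h4, h5⟩ := ha3 ha
      exact ⟨fun h => absurd h hA, fun _ => Pool.Agent.E8helper6.LI.fr_nonneg h4 h5⟩

end Pool.Agent.Results.MP_cd509c_nt.LiFrequenciesH6
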