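import Pool.Agent.E8helper62.RX.Inst

/-!
# The zeros of the Ramanujan Xi function and one-sided sizes of a prime sum on windows of logarithmic length

For a prime `p` let `s_k(p) = α^k + β^k`, `α`, `β` the roots of `X² - τ(p) X + p^11`.  For `a > 0` let

`E_a(v) = - (2πa)^(-1/2) ∑_p ∑_{k ≥ 1} log p · s_k(p) · p^(-6k) · exp(-(v - k log p)² / (2a))`,

a Gaussian smoothing at `x = e^v`, normalised, of the sum over the prime powers which belongs to
`L'(s, Δ) / L(s, Δ)`, and for `s = 1` or `s = -1` let `S_s(v)` be the supremum of `s E_a` over the window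
`W(v) = [v - log v, v + log v]`.  No hypothesis is assumed.  For every `a > 0`:

* every single zero `z` of `Ξ_Δ` makes `E_a` large in both directions in EVERY window: there is `c > 0` such that for
  all large `v` and both signs `s` there is `u` in `W(v)` with `s E_a(u) ≥ c exp(|Im z| max(u, v))`, and the integral
  of `max(s E_a, 0)` over `W(v)` is at least `c exp(|Im z| v)`;
* in particular `E_a` changes its sign in every window `W(v)`, `v` large;
* with `θ = sup |Im z|` over the zeros, `0 ≤ θ ≤ 1/2`, one has `|E_a(v)| ≤ K exp(θ v)` for all `v ≥ 0`, and the LIMIT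
  `log S_s(v) / v → θ` exists for each of the two signs;
* so, for each `t ≥ 0`, all zeros satisfy `|Im z| ≤ t` if and only if for ONE of the signs `s` and each `ε > 0` there
  are arbitrarily large `v` with `s E_a(u) ≤ exp((t + ε) u)` on the single window `W(v)`; with `t = 0` this is a
  criterion for all the zeros of `Ξ_Δ` to be real, which needs a bound on one side and on an arbitrarily sparse
  sequence of windows only.

(In the window `W(v)` the variable `x = e^u` of the primes runs from `x / log x` to `x log x` only, `x` now being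
`e^v`.)

Proof.  By an explicit formula (helper14, see the file `ExponentialMeanH14`) `E_a(v)` is the sum of
`exp(-a z² / 2) exp(i z v)` over the zeros of `Ξ_Δ`, up to a term which tends to zero.  The function
`Φ(u) = exp(6u) Δ(i exp u)` is positive and even and decays like `exp(6|u| - 2π exp|u|)`, and its Laplace transform
is `Λ(6 + w)`, which vanishes at all the zeros: so the average of `E_a(v - u)` against `Φ(u)` tends to zero.  For
a given zero `z`, dividing `Λ(6 + w)` by the corresponding power of a linear factor one gets a kernel `g` with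
`|g| ≤ B Φ` whose transform vanishes at all the zeros but at `z`.  The average against `g` is
`A exp(i z v) + o(1)` with `A ≠ 0`; hence the average of `|E_a(v - u)|` against `Φ(u)` is at least a constant
times `exp(|Im z| v)`, and then, the average of `E_a` itself being `o(1)`, so are the averages of its positive and
negative parts.  Finally the decay of `Φ` against the trivial bound `E_a(v) = O(exp(|v| / 2))` allows one to replace
the line by the window.
-/

set_option autoImplicit false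

open Filter Topology Complex

namespace Pool.Agent.Results.MP_cd509c_nt.OneSidedWindowsH62

/-- `Δ(i y) = e^(-2πy) ∏_{n ≥ 1} (1 - e^(-2πny))^24`, the modular discriminant on the imaginary axis
(the function of the frozen statement S18517). -/
noncomputable def delta (y : ℝ) : ℝ :=
  Real.exp (-2 * Real.pi * y) * ∏' n : ℕ, (1 - Real.exp (-2 * Real.pi * ((n : ℝ) + 1) * y)) ^ 24

/-- The completed L-function `Λ(s) = ∫_0^∞ Δ(i y) y^(s-1) dy = (2π)^(-s) Γ(s) L(s, Δ)`, an entire
function with `Λ(12 - s) = Λ(s)`. -/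
noncomputable def Lam (s : ℂ) : ℂ := mellin (fun y : ℝ => ((delta y : ℝ) : ℂ)) s

/-- The Ramanujan Xi function `Ξ_Δ(z) = Λ(6 + i z)`. -/
noncomputable def Xi (z : ℂ) : ℂ := Lam (6 + Complex.I * z)

/-- Q1 (the frozen statement S18517): every zero of the Ramanujan Xi function is real. -/
def AllZerosReal : Prop := ∀ z : ℂ, Xi z = 0 → z.im = 0

/-- Ramanujan's `τ(n)`: the coefficients of the q-expansion of the discriminant (they are real). -/
noncomputable def tau (n : ℕ) : ℝ := ((UpperHalfPlane.qExpansion 1 ModularForm.discriminant).coeff n).re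

/-- The power sums `s_k(p) = α^k + β^k` of the roots `α`, `β` of `X² - τ(p) X + p^11`. -/
noncomputable def powerSum (p : ℕ) : ℕ → ℝ
  | 0 => 2
  | 1 => tau p
  | k + 2 => tau p * powerSum p (k + 1) - (p : ℝ) ^ 11 * powerSum p k

/-- `log p · s_k(p) · p^(-6k) · exp(-(v - k log p)² / (2a))` for `k = x.2 + 1 ≥ 1` and the prime `p = x.1`. -/
noncomputable def primeTerm (a v : ℝ) (x : Nat.Primes × ℕ) : ℝ :=
  Real.log (x.1 : ℕ) * powerSum x.1 (x.2 + 1) / ((x.1 : ℕ) : ℝ) ^ (6 * (x.2 + 1)) *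
    Real.exp (-(v - (x.2 + 1) * Real.log (x.1 : ℕ)) ^ 2 / (2 * a))

/-- The smoothed and normalised sum over the prime powers near `e^v`. -/
noncomputable def E (a v : ℝ) : ℝ := -(∑' x : Nat.Primes × ℕ, primeTerm a v x) / Real.sqrt (2 * Real.pi * a)

/-- The window `[v - log v, v + log v]`. -/
def W (v : ℝ) : Set ℝ := Set.Icc (v - Real.log v) (v + Real.log v)

/-- The supremum of `s E_a` over the window. -/
noncomputable def S (a s v : ℝ) : ℝ := sSup ((fun u => s * E a u) '' W v)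

/-- **Theorem** (no hypothesis).  Let `a > 0`.  The series for `E_a(v)` converges absolutely, and `E_a` is continuous.
(1) For every zero `z` of `Ξ_Δ` there is `c > 0` such that for all large `v` and both signs `s` there is `u` in the
window `W(v)` with `s E_a(u) ≥ c exp(|Im z| max(u, v))`, and the integral of `max(s E_a, 0)` over `W(v)` is at least
`c exp(|Im z| v)`.  (2) `E_a` has a zero in `W(v)` for all large `v`.  (3) With `θ = sup |Im z|` over the zeros,
`0 ≤ θ ≤ 1/2`, `E_a(v) = O(exp(θ v))` for `v ≥ 0`, and `log S_s(v) / v → θ` for both signs `s`.  (4) For every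
`t ≥ 0`, all zeros satisfy `|Im z| ≤ t` if and only if there is a sign `s` such that for each `ε > 0` there are
arbitrarily large `v` with `s E_a(u) ≤ exp((t + ε) u)` on `W(v)`.  (5) In particular (`t = 0`) all zeros are real
if and only if there is a sign `s` such that for each `ε > 0` there are arbitrarily large `v` with
`s E_a(u) ≤ exp(ε u)` on `W(v)`. -/
theorem result (a : ℝ) (ha : 0 < a) :
    (∀ v : ℝ, Summable (primeTerm a v)) ∧ Continuous (E a) ∧
    (∀ z : ℂ, Xi z = 0 → ∃ c : ℝ, 0 < c ∧ ∀ᶠ v : ℝ in atTop, ∀ s : ℝ, s = 1 ∨ s = -1 →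
      (∃ u ∈ W v, c * Real.exp (|z.im| * max u v) ≤ s * E a u) ∧
      c * Real.exp (|z.im| * v) ≤ ∫ u in (v - Real.log v)..(v + Real.log v), max (s * E a u) 0) ∧
    (∀ᶠ v : ℝ in atTop, ∃ u ∈ W v, E a u = 0) ∧
    (∃ θ : ℝ, 0 ≤ θ ∧ θ ≤ 1 / 2 ∧ IsLUB {t : ℝ | ∃ z : ℂ, Xi z = 0 ∧ |z.im| = t} θ ∧
      (∃ K : ℝ, ∀ v : ℝ, 0 ≤ v → |E a v| ≤ K * Real.exp (θ * v)) ∧
      ∀ s : ℝ, s = 1 ∨ s = -1 → Tendsto (fun v => Real.log (S a s v) / v) atTop (𝓝 θ)) ∧
    (∀ t : ℝ, 0 ≤ t → ((∀ z : ℂ, Xi z = 0 → |z.im| ≤ t) ↔ ∃ s : ℝ, (s = 1 ∨ s = -1) ∧ ∀ ε : ℝ, 0 < ε →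
      ∃ᶠ v : ℝ in atTop, ∀ u ∈ W v, s * E a u ≤ Real.exp ((t + ε) * u))) ∧
    (AllZerosReal ↔ ∃ s : ℝ, (s = 1 ∨ s = -1) ∧ ∀ ε : ℝ, 0 < ε →
      ∃ᶠ v : ℝ in atTop, ∀ u ∈ W v, s * E a u ≤ Real.exp (ε * u)) := by
  have hXi : Xi = E8helper14.DL.Xg := by
    funext z
    unfold Xi E8helper14.DL.Xg
    rw [Pool.Agent.E8helper66.ND.Ld_mellin]
    rfl
  -- the error term, as in `ExponentialMeanH14`
  have htau : ∀ p : ℕ, p.Prime → tau p = (p : ℝ) ^ (11 / 2 : ℝ) * E8helper66.ND.ld p := by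
    intro p hp
    have hp0 : (0 : ℝ) < p := by exact_mod_cast hp.pos
    have e2 : E8helper66.ND.ld p = tau p / (p : ℝ) ^ ((((12 : ℤ) : ℝ) - 1) / 2) := rfl
    have e3 : (((12 : ℤ) : ℝ) - 1) / 2 = 11 / 2 := by norm_num
    rw [e2, e3, mul_div_cancel₀ _ (Real.rpow_pos_of_pos hp0 _).ne']
  set f : ℝ → ℕ → ℝ := fun v n => ArithmeticFunction.vonMangoldt n * E8helper14.DL.cD n * (n : ℝ) ^ (-(1 / 2) : ℝ) *
    E8helper14.LI.gs a (v - Real.log n) with hf
  have hterm : ∀ (v : ℝ) (x : Nat.Primes × ℕ), f v ((x.1 : ℕ) ^ (x.2 + 1)) = primeTerm a v x := by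
    intro v x
    exact E8helper14.DL.term_pp x.1 x.2 (s := powerSum x.1) (htau x.1 x.1.2) rfl rfl (fun k => rfl)
  have hfs : ∀ v, Summable (f v) := by
    intro v
    have h1 := E8helper14.LI.psum_summable ha (b := Pool.Agent.Y23.G.aL (L := E8helper14.DL.LDel))
      (Pool.Agent.Y23.G.aL_norm (L := E8helper14.DL.LDel)) v
    refine Summable.of_norm (h1.congr fun n => ?_)
    rw [E8helper14.DL.aL_D, ← Complex.ofReal_mul, Complex.norm_real]
  have hE : E a = E8helper14.DL.ED a := by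
    funext v
    have h1 := E8helper14.DL.sum_pp (f v) fun n hn => by
      simp only [hf]
      rw [ArithmeticFunction.vonMangoldt_eq_zero_iff.2 hn]
      simp
    unfold E E8helper14.DL.ED E8helper14.LI.KG
    have h2 : ∑' n : ℕ, ArithmeticFunction.vonMangoldt n * E8helper14.DL.cD n * (n : ℝ) ^ (-(1 / 2) : ℝ) *
        E8helper14.LI.gs a (v - Real.log n) = ∑' x : Nat.Primes × ℕ, primeTerm a v x := by
      show ∑' n : ℕ, f v n = _
      rw [h1]
      exact tsum_congr fun x => hterm v x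
    rw [h2]
    ring
  have H := E8helper62.RX.dt_D ha
  rw [← hE] at H
  have hz0 : ∃ z, Xi z = 0 := by
    rw [hXi]
    exact E8helper62.RX.ex_zero
  -- all zeros
  have hall : ∀ t : ℝ, (∀ z : ℂ, Xi z = 0 → |z.im| ≤ t) ↔ ∀ s, E8helper14.DL.mDel s ≠ 0 → |s.re - 1 / 2| ≤ t := by
    intro t
    rw [E8helper14.DL.zeros_form (fun x => |x| ≤ t), hXi]
    simp only [abs_neg]
  have hcrit : ∀ t : ℝ, 0 ≤ t → ((∀ z : ℂ, Xi z = 0 → |z.im| ≤ t) ↔ ∃ s : ℝ, (s = 1 ∨ s = -1) ∧ ∀ ε : ℝ, 0 < ε →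
      ∃ᶠ v : ℝ in atTop, ∀ u ∈ W v, s * E a u ≤ Real.exp ((t + ε) * u)) := fun t ht =>
    (hall t).trans (H.crit ht)
  have hlarge : ∀ z : ℂ, Xi z = 0 → ∃ c : ℝ, 0 < c ∧ ∀ᶠ v : ℝ in atTop, ∀ s : ℝ, s = 1 ∨ s = -1 →
      (∃ u ∈ W v, c * Real.exp (|z.im| * max u v) ≤ s * E a u) ∧
      c * Real.exp (|z.im| * v) ≤ ∫ u in (v - Real.log v)..(v + Real.log v), max (s * E a u) 0 := by
    intro z hz
    obtain ⟨h1, h2⟩ := E8helper62.RX.zero_pt (z := z) (by rw [← hXi]; exact hz)
    obtain ⟨c1, hc1, e1⟩ := H.sup h1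
    obtain ⟨c2, hc2, e2⟩ := H.L1 h1
    rw [h2] at e1 e2
    refine ⟨min c1 c2, lt_min hc1 hc2, ?_⟩
    filter_upwards [e1, e2] with v h3 h4 s hs
    obtain ⟨u, hu, h5⟩ := h3 s hs
    exact ⟨⟨u, hu, (mul_le_mul_of_nonneg_right (min_le_left _ _) (Real.exp_pos _).le).trans h5⟩,
      (mul_le_mul_of_nonneg_right (min_le_right _ _) (Real.exp_pos _).le).trans (h4 s hs)⟩
  refine ⟨fun v => (E8helper14.DL.summ_pp (hfs v)).congr fun x => hterm v x, H.ct, hlarge, ?_, ?_, hcrit, ?_⟩
  · obtain ⟨z, hz⟩ := hz0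
    obtain ⟨c, hc, h⟩ := hlarge z hz
    filter_upwards [h] with v hv
    obtain ⟨⟨u1, hu1, h1⟩, -⟩ := hv 1 (Or.inl rfl)
    obtain ⟨⟨u2, hu2, h2⟩, -⟩ := hv (-1) (Or.inr rfl)
    have p1 : 0 < c * Real.exp (|z.im| * max u1 v) := by positivity
    have p2 : 0 < c * Real.exp (|z.im| * max u2 v) := by positivity
    obtain ⟨u, hu, h3⟩ := (isPreconnected_Icc (a := v - Real.log v) (b := v + Real.log v)).intermediate_value
      hu2 hu1 H.ct.continuousOn (show (0 : ℝ) ∈ Set.Icc (E a u2) (E a u1) by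
        constructor <;> linarith)
    exact ⟨u, hu, h3⟩
  · obtain ⟨z, hz⟩ := hz0
    set T : Set ℝ := {t : ℝ | ∃ z : ℂ, Xi z = 0 ∧ |z.im| = t} with hT
    have hTb : ∀ t ∈ T, t ≤ 1 / 2 := by
      rintro t ⟨z, hz, rfl⟩
      exact E8helper14.DL.im_le (by rw [← hXi]; exact hz)
    have hzT : |z.im| ∈ T := ⟨z, hz, rfl⟩
    have hlub : IsLUB T (sSup T) := isLUB_csSup ⟨_, hzT⟩ ⟨1 / 2, hTb⟩
    have h0 : 0 ≤ sSup T := (abs_nonneg _).trans (hlub.1 hzT)
    have hlub' : IsLUB {t : ℝ | ∃ s : ℂ, E8helper14.DL.mDel s ≠ 0 ∧ |s.re - 1 / 2| = t} (sSup T) := by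
      rw [E8helper62.RX.zero_set, ← hXi]
      exact hlub
    refine ⟨sSup T, h0, hlub.2 fun t ht => hTb t ht, hlub, ?_, fun s hs => H.lim hlub' hs⟩
    obtain ⟨K, -, hK⟩ := H.upper h0 (fun s hs => hlub'.1 ⟨s, hs, rfl⟩)
    exact ⟨K, hK⟩
  · have h1 := hcrit 0 le_rfl
    simp only [zero_add] at h1
    rw [← h1]
    unfold AllZerosReal
    refine forall_congr' fun z => forall_congr' fun _ => ?_
    rw [abs_nonpos_iff]

end Pool.Agent.Results.MP_cd509c_nt.OneSidedWindowsH62
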